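import Pool.Agent.Run7.h20.HCB.Dims

/-!
# Metric and edge metric dimension of hypercubes: equality in almost all dimensions

The question is whether `dim(Q_d) = edim(Q_d)` for all `d ≠ 4`. We prove this for all `d` outside a
set with at most `16 N / log₂ N` elements up to `N`. The exceptions are even, and they are places
where the metric dimension jumps: `dim(Q_d) = edim(Q_d) + 1 = dim(Q_(d-1)) + 1`.
-/

set_option autoImplicit false

namespace Pool.Agent.Results.MP_41989c_co.AlmostAllDimensions

/-- The hypercube: two vectors of `{0, 1} ^ d` are adjacent if they differ in one coordinate. -/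
def cube (d : ℕ) : SimpleGraph (Fin d → Bool) where
  Adj x y := hammingDist x y = 1
  symm := ⟨fun x y h => by
    rw [hammingDist_comm]
    exact h⟩
  loopless := ⟨fun x h => by simp at h⟩

/-- `S` is a resolving set: the distances to the elements of `S` distinguish all vertices. -/
def IsResolving {V : Type} (G : SimpleGraph V) (S : Finset V) : Prop :=
  ∀ u v : V, u ≠ v → ∃ s ∈ S, G.dist u s ≠ G.dist v s

/-- `S` is an edge resolving set: the distances to the elements of `S` distinguish all edges, where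
the distance of an edge is the smaller one of the distances of its ends. -/
def IsEdgeResolving {V : Type} (G : SimpleGraph V) (S : Finset V) : Prop :=
  ∀ u v x y : V, G.Adj u v → G.Adj x y → s(u, v) ≠ s(x, y) →
    ∃ s ∈ S, min (G.dist u s) (G.dist v s) ≠ min (G.dist x s) (G.dist y s)

/-- the metric dimension -/
noncomputable def metricDim {V : Type} (G : SimpleGraph V) : ℕ :=
  sInf {n : ℕ | ∃ S : Finset V, S.card = n ∧ IsResolving G S}

/-- the edge metric dimension: the smallest size of a nonempty edge resolving set -/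
noncomputable def edgeMetricDim {V : Type} (G : SimpleGraph V) : ℕ :=
  sInf {n : ℕ | ∃ S : Finset V, S.Nonempty ∧ S.card = n ∧ IsEdgeResolving G S}

open Classical in
/-- **Equality of the metric and the edge metric dimension of the hypercube `Q_d` for almost all
`d`.** The number of the `d ≤ N` with `dim(Q_d) ≠ edim(Q_d)` is at most `16 N / log₂ N`, for all
`N ≥ 2`; such a `d` is even, and `dim(Q_d) = edim(Q_d) + 1 = dim(Q_(d-1)) + 1`. -/
theorem result :
    (∀ N : ℕ, 2 ≤ N →
      (((Finset.Icc 1 N).filter fun d =>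
        metricDim (cube d) ≠ edgeMetricDim (cube d)).card : ℝ) ≤ 16 * N / Real.logb 2 N) ∧
    ∀ d : ℕ, 1 ≤ d → metricDim (cube d) ≠ edgeMetricDim (cube d) →
      Even d ∧ metricDim (cube d) = edgeMetricDim (cube d) + 1 ∧
        metricDim (cube d) = metricDim (cube (d - 1)) + 1 := by
  refine ⟨fun N hN => ?_, fun d hd hne => ?_⟩
  · have h1 : ((Finset.Icc 1 N).filter fun d =>
        metricDim (cube d) ≠ edgeMetricDim (cube d)).card ≤ Run7.h20.HCB.dm N :=
      Run7.h20.HCB.count_le N (by omega)
    have h2 : ((((Finset.Icc 1 N).filter fun d =>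
        metricDim (cube d) ≠ edgeMetricDim (cube d)).card : ℕ) : ℝ) ≤ Run7.h20.HCB.dm N := by
      exact_mod_cast h1
    exact h2.trans (Run7.h20.HCB.dm_bound N hN)
  obtain ⟨e, rfl⟩ : ∃ e, d = e + 1 := ⟨d - 1, by omega⟩
  have h1 : Run7.h20.HCB.edm (e + 1) ≤ Run7.h20.HCB.dm (e + 1) :=
    Run7.h20.HCB.edm_le_dm (by omega)
  have h2 : Run7.h20.HCB.dm (e + 1) ≤ Run7.h20.HCB.edm (e + 1) + 1 :=
    Run7.h20.HCB.dm_le_succ (by omega)
  have h3 : Run7.h20.HCB.dm e ≤ Run7.h20.HCB.edm (e + 1) := Run7.h20.HCB.dm_le_edm_succ e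
  have h4 : Run7.h20.HCB.dm (e + 1) ≤ Run7.h20.HCB.dm e + 1 := Run7.h20.HCB.dm_succ_le e
  have h5 : Run7.h20.HCB.dm (e + 1) ≠ Run7.h20.HCB.edm (e + 1) := hne
  refine ⟨?_, ?_, ?_⟩
  · rcases Nat.even_or_odd (e + 1) with h | h
    · exact h
    · exact absurd (Run7.h20.HCB.dm_eq_edm h) h5
  · show Run7.h20.HCB.dm (e + 1) = Run7.h20.HCB.edm (e + 1) + 1
    omega
  · show Run7.h20.HCB.dm (e + 1) = Run7.h20.HCB.dm e + 1
    omega

end Pool.Agent.Results.MP_41989c_co.AlmostAllDimensions
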